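import Pool.Agent.R199.Beta2

set_option autoImplicit false

open Set

namespace Pool.Agent.Results.MP_ea58a7_an.SmallSlopeTransitive

/-- The map `x ↦ β x + α mod 1` of `[0, 1)`. -/
noncomputable def T (α β : ℝ) (x : Ico (0 : ℝ) 1) : Ico (0 : ℝ) 1 :=
  ⟨Int.fract (β * x + α), Int.fract_nonneg _, Int.fract_lt_one _⟩

/-- Topological transitivity of a self-map: for all nonempty open sets `U`, `V` some iterate
`n ≥ 0` of `U` meets `V`. -/
def Transitive {X : Type*} [TopologicalSpace X] (f : X → X) : Prop :=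
  ∀ U V : Set X, IsOpen U → U.Nonempty → IsOpen V → V.Nonempty →
    ∃ n : ℕ, (f^[n] '' U ∩ V).Nonempty

theorem result : ∀ α β : ℝ, 1 < β → β ≤ 2 → 0 ≤ α → α + β ≤ 2 → β ≤ Real.sqrt 2 →
    (α ≤ 1 - 1 / β ∨ 1 + 1 / β - β ≤ α) → Transitive (T α β) := by
  intro α β hβ1 _ hα hαβ hβ2 h U V hU hUne hV hVne
  exact Pool.Agent.R199.Beta.transitive hβ1 hβ2 hα hαβ h U V hU hUne hV hVne

end Pool.Agent.Results.MP_ea58a7_an.SmallSlopeTransitive
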